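import Mathlib

/-!
# The free topological group over an ω-narrow uniform space

There is an `ω`-narrow uniform space `X` such that the neighbourhood filter of the identity of the
free topological group over `X` is not Tukey below `ω^ω × 𝓤^ω`. The space is the disjoint sum of
`ω₁` (with a uniformity given by countable partitions) and the real line.
-/

set_option autoImplicit false

open Set Topology Filter Uniformity
open Cardinal hiding univ

namespace Pool.Agent.Results.MP_849c2a_gt.NotTukeyBelow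

/-! ### Definitions -/

/-- `A` is cofinal with respect to the relation `le`. -/
def CofinalIn {P : Type} (le : P → P → Prop) (A : Set P) : Prop := ∀ x, ∃ a ∈ A, le x a

/-- Tukey reducibility: some map from `Q` to `P` sends cofinal subsets to cofinal subsets. -/
def TukeyLE {P Q : Type} (leP : P → P → Prop) (leQ : Q → Q → Prop) : Prop :=
  ∃ φ : Q → P, ∀ A : Set Q, CofinalIn leQ A → CofinalIn leP (φ '' A)

/-- The symmetric entourages of a uniform space. -/
def Ent (X : Type) [UniformSpace X] : Type :=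
  {U : Set (X × X) // U ∈ 𝓤 X ∧ ∀ x y, (x, y) ∈ U → (y, x) ∈ U}

/-- The order of `ω^ω × 𝓤^ω`: coordinatewise; the entourages are ordered by reverse inclusion. -/
def prodLE (X : Type) [UniformSpace X] (q q' : (ℕ → ℕ) × (ℕ → Ent X)) : Prop :=
  (∀ n, q.1 n ≤ q'.1 n) ∧ ∀ n, (q'.2 n).1 ⊆ (q.2 n).1

/-- The order by reverse inclusion of the neighbourhoods of the identity. -/
def nhdsLE {G : Type} [Group G] (t : TopologicalSpace G)
    (W W' : {W : Set G // W ∈ @nhds G t 1}) : Prop := W'.1 ⊆ W.1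

/-- For every entourage `U` the space is covered by countably many `U`-balls. -/
def OmegaNarrow (X : Type) [UniformSpace X] : Prop :=
  ∀ U ∈ 𝓤 X, ∃ A : Set X, A.Countable ∧ ∀ x, ∃ a ∈ A, (a, x) ∈ U

/-- `φ` is uniformly continuous with respect to the two-sided uniformity of the group `G` with the
topology `t`. -/
def UC {X G : Type} [UniformSpace X] [Group G] (t : TopologicalSpace G) (φ : X → G) : Prop :=
  ∀ V ∈ @nhds G t 1, ∃ U ∈ 𝓤 X, ∀ x y, (x, y) ∈ U → φ x * (φ y)⁻¹ ∈ V ∧ (φ x)⁻¹ * φ y ∈ V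

/-- `t` is the topology of the free topological group over the uniform space `X`: it is a group
topology, the map from `X` is uniformly continuous, and every uniformly continuous map from `X` to
a topological group extends to a continuous homomorphism (the extension is unique, since `X`
generates the free group). -/
def IsFreeTop (X : Type) [UniformSpace X] (t : TopologicalSpace (FreeGroup X)) : Prop :=
  @IsTopologicalGroup (FreeGroup X) t _ ∧ UC t (FreeGroup.of : X → FreeGroup X) ∧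
    ∀ (G : Type) (_ : Group G) (s : TopologicalSpace G), @IsTopologicalGroup G s _ →
      ∀ φ : X → G, UC s φ → @Continuous _ _ t s (FreeGroup.lift φ)

/-! ### The free topology exists -/

theorem exists_isFreeTop (X : Type) [UniformSpace X] : ∃ t, IsFreeTop X t := by
  let T : Set (TopologicalSpace (FreeGroup X)) :=
    {t | @IsTopologicalGroup (FreeGroup X) t _ ∧ UC t (FreeGroup.of : X → FreeGroup X)}
  refine ⟨sInf T, topologicalGroup_sInf fun t ht => ht.1, ?_, ?_⟩
  · intro V hV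
    rw [nhds_sInf, Filter.mem_iInf] at hV
    obtain ⟨I, hI, F, hF, rfl⟩ := hV
    have h1 : ∀ i : I, ∃ U ∈ 𝓤 X, ∀ x y, (x, y) ∈ U →
        (FreeGroup.of x * (FreeGroup.of y)⁻¹ ∈ F i ∧ (FreeGroup.of x)⁻¹ * FreeGroup.of y ∈ F i) := by
      intro i
      have h2 := hF i
      by_cases hiT : (i : TopologicalSpace (FreeGroup X)) ∈ T
      · rw [iInf_pos hiT] at h2
        exact hiT.2 _ h2
      · rw [iInf_neg hiT, Filter.mem_top] at h2
        refine ⟨univ, univ_mem, fun x y _ => ?_⟩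
        rw [h2]
        exact ⟨mem_univ _, mem_univ _⟩
    choose U hU hU' using h1
    have : Finite I := hI
    refine ⟨⋂ i, U i, Filter.iInter_mem.2 hU, fun x y hxy => ?_⟩
    rw [mem_iInter] at hxy
    exact ⟨mem_iInter.2 fun i => (hU' i x y (hxy i)).1, mem_iInter.2 fun i => (hU' i x y (hxy i)).2⟩
  · intro G _ s hs φ hφ
    rw [continuous_iff_le_induced]
    refine sInf_le ⟨topologicalGroup_induced (FreeGroup.lift φ), ?_⟩
    intro V hV
    rw [nhds_induced, map_one] at hV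
    obtain ⟨V', hV', hVV⟩ := hV
    obtain ⟨U, hU, hU'⟩ := hφ V' hV'
    refine ⟨U, hU, fun x y hxy => ?_⟩
    obtain ⟨h1, h2⟩ := hU' x y hxy
    refine ⟨hVV ?_, hVV ?_⟩
    · simpa using h1
    · simpa using h2

/-! ### The uniform space -/

/-- The well-ordered set `ω₁`. -/
abbrev W : Type := (ℵ₁ : Cardinal.{0}).ord.ToType

theorem mk_W : #W = ℵ₁ := by simp

theorem countable_Iio (a : W) : (Iio a).Countable := by
  have h : #(Iio a) < #W := Cardinal.mk_Iio_lt a (by simp)
  rw [mk_W] at h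
  exact le_aleph0_iff_set_countable.1 (Cardinal.lt_aleph_one_iff.1 h)

theorem not_countable_univ : ¬ (univ : Set W).Countable := by
  rw [← le_aleph0_iff_set_countable, mk_univ, mk_W, not_le]
  exact aleph0_lt_aleph_one

/-- Countably many elements of `ω₁` have a strict upper bound. -/
theorem exists_bound {I : Type} [Countable I] (a : I → W) : ∃ b, ∀ i, a i < b := by
  by_contra! h
  refine not_countable_univ ((countable_iUnion fun i =>
    (countable_Iio (a i)).union (countable_singleton (a i))).mono ?_)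
  intro b _
  obtain ⟨i, hi⟩ := h b
  refine mem_iUnion.2 ⟨i, ?_⟩
  rcases hi.lt_or_eq with h | h
  · exact Or.inl h
  · exact Or.inr h

instance : Nonempty W := by
  rw [← mk_ne_zero_iff, mk_W]
  exact (aleph0_pos.trans aleph0_lt_aleph_one).ne'

/-- The entourages: the singletons below `α` and the rest. -/
def E (α : W) : Set (W × W) := {p | p.1 = p.2 ∨ (α ≤ p.1 ∧ α ≤ p.2)}

theorem E_anti {α β : W} (h : α ≤ β) : E β ⊆ E α := by
  rintro p (hp | ⟨hp1, hp2⟩)
  · exact Or.inl hp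
  · exact Or.inr ⟨h.trans hp1, h.trans hp2⟩

/-- The base of the uniformity. -/
def basis : FilterBasis (W × W) where
  sets := range E
  nonempty := range_nonempty E
  inter_sets := by
    rintro _ _ ⟨a, rfl⟩ ⟨b, rfl⟩
    exact ⟨_, ⟨max a b, rfl⟩, subset_inter (E_anti (le_max_left _ _)) (E_anti (le_max_right _ _))⟩

/-- The uniformity of `ω₁` given by the partitions into the singletons below `α` and the rest. -/
instance uniformW : UniformSpace W :=
  UniformSpace.ofCore (UniformSpace.Core.mkOfBasis basis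
    (by
      rintro _ ⟨a, rfl⟩ x
      exact Or.inl rfl)
    (by
      rintro _ ⟨a, rfl⟩
      refine ⟨_, ⟨a, rfl⟩, ?_⟩
      rintro ⟨x, y⟩ (h | ⟨h1, h2⟩)
      · exact Or.inl h.symm
      · exact Or.inr ⟨h2, h1⟩)
    (by
      rintro _ ⟨a, rfl⟩
      refine ⟨_, ⟨a, rfl⟩, ?_⟩
      rintro ⟨x, z⟩ ⟨y, h1, h2⟩
      rcases h1 with h1 | ⟨h1, h1'⟩ <;> rcases h2 with h2 | ⟨h2, h2'⟩
      · exact Or.inl (h1.trans h2)
      · refine Or.inr ⟨?_, h2'⟩
        have h1 : x = y := h1
        rw [h1]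
        exact h2
      · refine Or.inr ⟨h1, ?_⟩
        have h2 : y = z := h2
        rw [← h2]
        exact h1'
      · exact Or.inr ⟨h1, h2'⟩))

theorem mem_uniformW {U : Set (W × W)} : U ∈ 𝓤 W ↔ ∃ α, E α ⊆ U := by
  have h1 : U ∈ 𝓤 W ↔ ∃ s ∈ basis, s ⊆ U := FilterBasis.mem_filter_iff basis
  rw [h1]
  constructor
  · rintro ⟨_, ⟨α, rfl⟩, h⟩
    exact ⟨α, h⟩
  · rintro ⟨α, h⟩
    exact ⟨_, ⟨α, rfl⟩, h⟩

/-- The uniform space. -/
abbrev X : Type := W ⊕ ℝ

/-- The basic entourages of `X`. -/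
def Bas (α : W) (k : ℕ) : Set (X × X) :=
  {p | (∃ ξ η, p = (Sum.inl ξ, Sum.inl η) ∧ (ξ, η) ∈ E α) ∨
    ∃ x y : ℝ, p = (Sum.inr x, Sum.inr y) ∧ |x - y| < 1 / ((k : ℝ) + 1)}

theorem Bas_anti {α β : W} {k l : ℕ} (h : α ≤ β) (h' : k ≤ l) : Bas β l ⊆ Bas α k := by
  rintro p (⟨ξ, η, rfl, hp⟩ | ⟨x, y, rfl, hp⟩)
  · exact Or.inl ⟨ξ, η, rfl, E_anti h hp⟩
  · refine Or.inr ⟨x, y, rfl, hp.trans_le ?_⟩
    apply one_div_le_one_div_of_le (by positivity)
    have : (k : ℝ) ≤ l := by exact_mod_cast h'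
    linarith

theorem Bas_symm (α : W) (k : ℕ) (p q : X) (h : (p, q) ∈ Bas α k) : (q, p) ∈ Bas α k := by
  rcases h with ⟨ξ, η, he, hp⟩ | ⟨x, y, he, hp⟩
  · refine Or.inl ⟨η, ξ, ?_, ?_⟩
    · rw [Prod.mk.injEq] at he ⊢
      exact ⟨he.2, he.1⟩
    · rcases hp with hp | ⟨hp1, hp2⟩
      · exact Or.inl (Eq.symm hp)
      · exact Or.inr ⟨hp2, hp1⟩
  · refine Or.inr ⟨y, x, ?_, ?_⟩
    · rw [Prod.mk.injEq] at he ⊢
      exact ⟨he.2, he.1⟩
    · rwa [abs_sub_comm]

theorem mem_uniformX {U : Set (X × X)} : U ∈ 𝓤 X ↔ ∃ α k, Bas α k ⊆ U := by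
  rw [Sum.uniformity, Filter.mem_sup, Filter.mem_map, Filter.mem_map, mem_uniformW,
    Metric.mem_uniformity_dist]
  constructor
  · rintro ⟨⟨α, hα⟩, ε, hε, hεU⟩
    obtain ⟨k, hk⟩ := exists_nat_one_div_lt hε
    refine ⟨α, k, ?_⟩
    rintro p (⟨ξ, η, rfl, hp⟩ | ⟨x, y, rfl, hp⟩)
    · exact hα hp
    · refine hεU (a := x) (b := y) ?_
      rw [Real.dist_eq]
      exact hp.trans hk
  · rintro ⟨α, k, h⟩
    refine ⟨⟨α, fun p hp => h (Or.inl ⟨p.1, p.2, rfl, hp⟩)⟩, 1 / ((k : ℝ) + 1), by positivity, ?_⟩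
    intro x y hxy
    rw [Real.dist_eq] at hxy
    exact h (Or.inr ⟨x, y, rfl, hxy⟩)

theorem separated (x y : X) (h : ∀ U ∈ 𝓤 X, (x, y) ∈ U) : x = y := by
  have h1 : ∀ α k, (x, y) ∈ Bas α k := fun α k => h _ (mem_uniformX.2 ⟨α, k, subset_rfl⟩)
  rcases x with ξ | x <;> rcases y with η | y
  · obtain ⟨β, hβ⟩ := exists_bound (fun _ : Unit => max ξ η)
    rcases h1 β 0 with ⟨ξ', η', he, hp⟩ | ⟨x, y, he, hp⟩
    · simp only [Prod.mk.injEq, Sum.inl.injEq] at he
      obtain ⟨rfl, rfl⟩ := he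
      rcases hp with hp | ⟨hp1, hp2⟩
      · exact congrArg _ hp
      · exact absurd hp1 (not_le.2 ((le_max_left _ _).trans_lt (hβ ())))
    · simp at he
  · rcases h1 (Classical.arbitrary W) 0 with ⟨ξ', η', he, hp⟩ | ⟨x, y, he, hp⟩ <;> simp at he
  · rcases h1 (Classical.arbitrary W) 0 with ⟨ξ', η', he, hp⟩ | ⟨x, y, he, hp⟩ <;> simp at he
  · have h2 : ∀ k : ℕ, |x - y| < 1 / ((k : ℝ) + 1) := by
      intro k
      rcases h1 (Classical.arbitrary W) k with ⟨ξ', η', he, hp⟩ | ⟨x', y', he, hp⟩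
      · simp at he
      · simp only [Prod.mk.injEq, Sum.inr.injEq] at he
        obtain ⟨rfl, rfl⟩ := he
        exact hp
    by_contra hne
    have h3 : 0 < |x - y| := abs_pos.2 (sub_ne_zero.2 fun h => hne (congrArg _ h))
    obtain ⟨k, hk⟩ := exists_nat_one_div_lt h3
    exact absurd (h2 k) (not_lt.2 hk.le)

theorem omegaNarrow : OmegaNarrow X := by
  intro U hU
  obtain ⟨α, k, h⟩ := mem_uniformX.1 hU
  refine ⟨Sum.inl '' (Iio α ∪ {α}) ∪ Sum.inr '' range (fun q : ℚ => (q : ℝ)),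
    (((countable_Iio α).union (countable_singleton α)).image _).union
      ((countable_range _).image _), fun x => ?_⟩
  rcases x with ξ | x
  · by_cases hξ : ξ < α
    · exact ⟨Sum.inl ξ, Or.inl ⟨ξ, Or.inl hξ, rfl⟩, h (Or.inl ⟨ξ, ξ, rfl, Or.inl rfl⟩)⟩
    · exact ⟨Sum.inl α, Or.inl ⟨α, Or.inr rfl, rfl⟩,
        h (Or.inl ⟨α, ξ, rfl, Or.inr ⟨le_rfl, not_lt.1 hξ⟩⟩)⟩
  · obtain ⟨q, hq⟩ := exists_rat_near x (show (0 : ℝ) < 1 / ((k : ℝ) + 1) by positivity)
    refine ⟨Sum.inr q, Or.inr ⟨q, ⟨q, rfl⟩, rfl⟩, h (Or.inr ⟨q, x, rfl, ?_⟩)⟩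
    rwa [abs_sub_comm]

/-! ### A topological group -/

/-- The semidirect product of `ℝ` and the discrete group `ℤ` acting by multiplication with powers
of `2`. -/
@[ext] structure Aff where
  /-- the translation part -/
  t : ℝ
  /-- the exponent -/
  k : ℤ

noncomputable instance : Mul Aff := ⟨fun a b => ⟨a.t + 2 ^ a.k * b.t, a.k + b.k⟩⟩
noncomputable instance : One Aff := ⟨⟨0, 0⟩⟩
noncomputable instance : Inv Aff := ⟨fun a => ⟨-(2 ^ (-a.k) * a.t), -a.k⟩⟩

@[simp] theorem mul_t (a b : Aff) : (a * b).t = a.t + 2 ^ a.k * b.t := rfl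
@[simp] theorem mul_k (a b : Aff) : (a * b).k = a.k + b.k := rfl
@[simp] theorem one_t : (1 : Aff).t = 0 := rfl
@[simp] theorem one_k : (1 : Aff).k = 0 := rfl
@[simp] theorem inv_t (a : Aff) : (a⁻¹).t = -(2 ^ (-a.k) * a.t) := rfl
@[simp] theorem inv_k (a : Aff) : (a⁻¹).k = -a.k := rfl

noncomputable instance : Group Aff := Group.ofLeftAxioms
  (by
    intro a b c
    ext
    · simp only [mul_t, mul_k]
      rw [zpow_add₀ two_ne_zero]
      ring
    · simp [add_assoc])
  (by
    intro a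
    ext <;> simp)
  (by
    intro a
    ext <;> simp)

/-- The map to the product. -/
def toProd (a : Aff) : ℝ × ℤ := (a.t, a.k)

instance : TopologicalSpace Aff := TopologicalSpace.induced toProd inferInstance

theorem continuous_t : Continuous (fun a : Aff => a.t) :=
  continuous_fst.comp (continuous_induced_dom (f := toProd))

theorem continuous_k : Continuous (fun a : Aff => a.k) :=
  continuous_snd.comp (continuous_induced_dom (f := toProd))

theorem continuous_pow : Continuous (fun a : Aff => (2 : ℝ) ^ a.k) :=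
  (continuous_of_discreteTopology (f := fun k : ℤ => (2 : ℝ) ^ k)).comp continuous_k

instance : IsTopologicalGroup Aff where
  continuous_mul := by
    rw [continuous_induced_rng]
    refine Continuous.prodMk ?_ ?_
    · exact (continuous_t.comp continuous_fst).add
        ((continuous_pow.comp continuous_fst).mul (continuous_t.comp continuous_snd))
    · exact (continuous_k.comp continuous_fst).add (continuous_k.comp continuous_snd)
  continuous_inv := by
    rw [continuous_induced_rng]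
    refine Continuous.prodMk ?_ ?_
    · have h1 : Continuous fun a : Aff => -((2 : ℝ) ^ (-a.k) * a.t) :=
        (((continuous_of_discreteTopology (f := fun k : ℤ => (2 : ℝ) ^ (-k))).comp
          continuous_k).mul continuous_t).neg
      exact h1
    · exact continuous_k.neg

theorem mem_nhds_one {V : Set Aff} (hV : V ∈ 𝓝 (1 : Aff)) :
    ∃ ε > 0, ∀ a : Aff, |a.t| < ε → a.k = 0 → a ∈ V := by
  rw [nhds_induced] at hV
  obtain ⟨V', hV', hVV⟩ := hV
  have h1 : toProd 1 = ((0 : ℝ), (0 : ℤ)) := rfl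
  rw [h1, nhds_prod_eq, nhds_discrete ℤ, Filter.prod_pure, Filter.mem_map,
    Metric.mem_nhds_iff] at hV'
  obtain ⟨ε, hε, h⟩ := hV'
  refine ⟨ε, hε, fun a ha hk => hVV ?_⟩
  have h2 : a.t ∈ Metric.ball (0 : ℝ) ε := by
    rw [Metric.mem_ball, Real.dist_eq, sub_zero]
    exact ha
  have h3 := h h2
  show (a.t, a.k) ∈ V'
  rw [hk]
  exact h3

/-- The neighbourhood `(-1, 1) × {0}`. -/
def O : Set Aff := {a | |a.t| < 1 ∧ a.k = 0}

theorem O_mem : O ∈ 𝓝 (1 : Aff) := by
  have h1 : IsOpen O := by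
    have h2 : O = (fun a : Aff => a.t) ⁻¹' {x | |x| < 1} ∩ (fun a : Aff => a.k) ⁻¹' {0} := rfl
    rw [h2]
    exact ((isOpen_lt continuous_abs continuous_const).preimage continuous_t).inter
      ((isOpen_discrete _).preimage continuous_k)
  exact h1.mem_nhds ⟨by simp, rfl⟩

/-! ### The neighbourhoods given by functions -/

/-- The map from `X` to `Aff` given by `β` and a function `e`. -/
noncomputable def phi (β : W) (e : W → ℕ) : X → Aff
  | Sum.inl ξ => ⟨0, if ξ < β then (e ξ : ℤ) else 0⟩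
  | Sum.inr x => ⟨x, 0⟩

theorem uc_phi (β : W) (e : W → ℕ) : UC inferInstance (phi β e) := by
  intro V hV
  obtain ⟨ε, hε, h⟩ := mem_nhds_one hV
  obtain ⟨k, hk⟩ := exists_nat_one_div_lt hε
  refine ⟨Bas β k, mem_uniformX.2 ⟨β, k, subset_rfl⟩, ?_⟩
  rintro p q (⟨ξ, η, he, hp⟩ | ⟨x, y, he, hp⟩)
  · rw [Prod.mk.injEq] at he
    obtain ⟨rfl, rfl⟩ := he
    have h1 : phi β e (Sum.inl ξ) = phi β e (Sum.inl η) := by
      rcases hp with hp | ⟨hp1, hp2⟩
      · have hp : ξ = η := hp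
        rw [hp]
      · have hp1 : ¬ ξ < β := not_lt.2 hp1
        have hp2 : ¬ η < β := not_lt.2 hp2
        simp [phi, hp1, hp2]
    rw [h1, mul_inv_cancel, inv_mul_cancel]
    exact ⟨h _ (by simpa using hε) rfl, h _ (by simpa using hε) rfl⟩
  · rw [Prod.mk.injEq] at he
    obtain ⟨rfl, rfl⟩ := he
    refine ⟨h _ ?_ (by simp [phi]), h _ ?_ (by simp [phi])⟩
    · have h1 : (phi β e (Sum.inr x) * (phi β e (Sum.inr y))⁻¹).t = x - y := by
        simp [phi, sub_eq_add_neg]
      rw [h1]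
      exact hp.trans hk
    · have h1 : ((phi β e (Sum.inr x))⁻¹ * phi β e (Sum.inr y)).t = y - x := by
        simp [phi, sub_eq_add_neg, add_comm]
      rw [h1, abs_sub_comm]
      exact hp.trans hk

/-- The word `ξ x 0⁻¹ ξ⁻¹`. -/
def word (ξ : W) (x : ℝ) : FreeGroup X :=
  FreeGroup.of (Sum.inl ξ) * (FreeGroup.of (Sum.inr x) * (FreeGroup.of (Sum.inr 0))⁻¹) *
    (FreeGroup.of (Sum.inl ξ))⁻¹

theorem lift_word (β : W) (e : W → ℕ) {ξ : W} (hξ : ξ < β) (x : ℝ) :
    FreeGroup.lift (phi β e) (word ξ x) = ⟨2 ^ (e ξ) * x, 0⟩ := by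
  simp only [word, map_mul, map_inv, FreeGroup.lift_apply_of]
  ext
  · simp [phi, hξ]
  · simp [phi, hξ]

/-- Words with small middle part are in a given neighbourhood. -/
theorem eventually_word {t : TopologicalSpace (FreeGroup X)} (ht : IsFreeTop X t)
    {V : Set (FreeGroup X)} (hV : V ∈ @nhds _ t 1) (ξ : W) :
    ∃ K : ℕ, ∀ k : ℕ, K ≤ k → word ξ (1 / ((k : ℝ) + 1)) ∈ V := by
  have := ht.1
  let g : FreeGroup X := FreeGroup.of (Sum.inl ξ)
  have h1 : {z : FreeGroup X | g * z * g⁻¹ ∈ V} ∈ @nhds _ t 1 := by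
    have hc : Continuous fun z : FreeGroup X => g * z * g⁻¹ := by fun_prop
    have h2 := hc.tendsto 1
    simp only [mul_one, mul_inv_cancel] at h2
    exact h2 hV
  obtain ⟨U, hU, hU'⟩ := ht.2.1 _ h1
  obtain ⟨α, K, hK⟩ := mem_uniformX.1 hU
  refine ⟨K + 1, fun k hk => ?_⟩
  have h3 : ((Sum.inr (1 / ((k : ℝ) + 1)), Sum.inr 0) : X × X) ∈ U := by
    refine hK (Or.inr ⟨_, _, rfl, ?_⟩)
    rw [sub_zero, abs_of_pos (by positivity)]
    apply one_div_lt_one_div_of_lt (by positivity)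
    have h4 : (K : ℝ) + 1 ≤ k := by exact_mod_cast hk
    linarith
  exact (hU' _ _ h3).1

/-! ### The main argument -/

theorem exists_inj (β : W) : ∃ e : W → ℕ, InjOn e (Iio β) :=
  countable_iff_exists_injOn.1 (countable_Iio β)

theorem not_tukey {t : TopologicalSpace (FreeGroup X)} (ht : IsFreeTop X t) :
    ¬ TukeyLE (nhdsLE t) (prodLE X) := by
  classical
  rintro ⟨φ, hφ⟩
  -- the dual map
  have hdual : ∀ w : {V : Set (FreeGroup X) // V ∈ @nhds _ t 1}, ∃ q, ∀ q', prodLE X q q' →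
      nhdsLE t w (φ q') := by
    intro w
    by_contra! h
    obtain ⟨_, ⟨q, hq, rfl⟩, hq'⟩ := hφ {q | ¬ nhdsLE t w (φ q)} (fun q => by
      obtain ⟨q', h1, h2⟩ := h q
      exact ⟨q', h2, h1⟩) w
    exact hq hq'
  choose e he using exists_inj
  let w : W → {V : Set (FreeGroup X) // V ∈ @nhds _ t 1} := fun β =>
    ⟨FreeGroup.lift (phi β (e β)) ⁻¹' O, by
      have h1 := ht.2.2 Aff inferInstance inferInstance inferInstance _ (uc_phi β (e β))
      have h2 : O ∈ 𝓝 (FreeGroup.lift (phi β (e β)) 1) := by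
        rw [map_one]
        exact O_mem
      exact (@Continuous.continuousAt _ _ t _ _ 1 h1) h2⟩
  choose q hq using fun β => hdual (w β)
  have hbas : ∀ (β : W) (n : ℕ), ∃ α k, Bas α k ⊆ ((q β).2 n).1 := fun β n =>
    mem_uniformX.1 ((q β).2 n).2.1
  choose α₀ k hk using hbas
  choose α hα using fun β => exists_bound (α₀ β)
  -- the code of `β`
  let F : W → ℕ → ℕ × ℕ := fun β n => ((q β).1 n, k β n)
  let R : (ℕ → ℕ × ℕ) → ℕ → Set W := fun f m =>
    {ξ | ∀ β, (∀ n < m, F β n = f n) → ξ < β → e β ξ ≤ m}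
  have hR : ∀ f f' m, (∀ n < m, f n = f' n) → R f m = R f' m := by
    intro f f' m h
    ext ξ
    have h1 : ∀ β, (∀ n < m, F β n = f n) ↔ ∀ n < m, F β n = f' n := fun β =>
      forall₂_congr fun n hn => by rw [h n hn]
    exact forall_congr' fun β => by rw [h1 β]
  -- every point is eventually in the web
  have hweb : ∀ f ξ, ∃ m, ξ ∈ R f m := by
    intro f ξ
    by_contra! h
    have h1 : ∀ m, ∃ β, (∀ n < m, F β n = f n) ∧ ξ < β ∧ m < e β ξ := by
      intro m
      have := h m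
      simp only [R, mem_ofPred_eq] at this
      push Not at this
      obtain ⟨β, h2, h3, h4⟩ := this
      exact ⟨β, h2, h3, h4⟩
    choose β hβ1 hβ2 hβ3 using h1
    obtain ⟨a, ha⟩ := exists_bound fun m => α (β m)
    let g : ℕ → ℕ × ℕ := fun n =>
      (max (f n).1 ((Finset.range (n + 1)).sup fun m => (F (β m) n).1),
        max (f n).2 ((Finset.range (n + 1)).sup fun m => (F (β m) n).2))
    have hg : ∀ m n, (F (β m) n).1 ≤ (g n).1 ∧ (F (β m) n).2 ≤ (g n).2 := by
      intro m n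
      by_cases hnm : n < m
      · rw [hβ1 m n hnm]
        exact ⟨le_max_left _ _, le_max_left _ _⟩
      · have hmem : m ∈ Finset.range (n + 1) := Finset.mem_range.2 (by omega)
        exact ⟨(Finset.le_sup (f := fun m => (F (β m) n).1) hmem).trans (le_max_right _ _),
          (Finset.le_sup (f := fun m => (F (β m) n).2) hmem).trans (le_max_right _ _)⟩
    let q' : (ℕ → ℕ) × (ℕ → Ent X) := (fun n => (g n).1, fun n => ⟨Bas a (g n).2,
      mem_uniformX.2 ⟨a, (g n).2, subset_rfl⟩, Bas_symm a (g n).2⟩)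
    have hq' : ∀ m, prodLE X (q (β m)) q' := by
      intro m
      refine ⟨fun n => (hg m n).1, fun n => ?_⟩
      refine (Bas_anti ?_ (hg m n).2).trans (hk (β m) n)
      exact ((hα (β m) n).trans (ha m)).le
    obtain ⟨K, hK⟩ := eventually_word ht (φ q').2 ξ
    have h2 : word ξ (1 / ((K : ℝ) + 1)) ∈ (w (β K)).1 := hq (β K) q' (hq' K) (hK K le_rfl)
    have h3 : FreeGroup.lift (phi (β K) (e (β K))) (word ξ (1 / ((K : ℝ) + 1))) ∈ O := h2
    rw [lift_word _ _ (hβ2 K)] at h3
    have h4 : |(2 : ℝ) ^ (e (β K) ξ) * (1 / ((K : ℝ) + 1))| < 1 := h3.1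
    rw [abs_of_pos (by positivity), mul_one_div, div_lt_one (by positivity)] at h4
    have h5 : e (β K) ξ < 2 ^ (e (β K) ξ) := Nat.lt_two_pow_self
    have h6 : K + 1 ≤ 2 ^ (e (β K) ξ) := by
      have := hβ3 K
      omega
    have h7 : (K : ℝ) + 1 ≤ 2 ^ (e (β K) ξ) := by exact_mod_cast h6
    linarith
  -- the web is finite below `β` along the branch of `β`
  have hfin : ∀ β m, (R (F β) m ∩ Iio β).Finite := by
    intro β m
    refine Set.Finite.of_finite_image (f := e β) ((finite_le_nat m).subset ?_)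
      ((he β).mono inter_subset_right)
    rintro _ ⟨ξ, ⟨h1, h2⟩, rfl⟩
    exact h1 β (fun n _ => rfl) h2
  -- stabilization
  let R' : (Σ m : ℕ, (Fin m → ℕ × ℕ)) → Set W := fun s =>
    R (fun n => if h : n < s.1 then s.2 ⟨n, h⟩ else (0, 0)) s.1
  have hR' : ∀ f m, R f m = R' ⟨m, fun i => f i⟩ := by
    intro f m
    refine hR _ _ _ fun n hn => ?_
    simp [hn]
  have hstab : ∀ s : (Σ m : ℕ, (Fin m → ℕ × ℕ)), ∃ γ : W, (R' s).Infinite →
      (R' s ∩ Iio γ).Infinite := by
    intro s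
    by_cases hs : (R' s).Infinite
    · obtain ⟨γ, hγ⟩ := exists_bound fun n => ((hs.natEmbedding _ n : R' s) : W)
      refine ⟨γ, fun _ => ?_⟩
      refine Set.infinite_of_injective_forall_mem (f := fun n => ((hs.natEmbedding _ n : R' s) : W))
        (Subtype.val_injective.comp (hs.natEmbedding _).injective) fun n => ?_
      exact ⟨(hs.natEmbedding _ n : R' s).2, hγ n⟩
    · exact ⟨Classical.arbitrary W, fun h => absurd h hs⟩
  choose γ hγ using hstab
  obtain ⟨β, hβ⟩ := exists_bound γ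
  have hfin' : ∀ m, (R (F β) m).Finite := by
    intro m
    by_contra hinf
    rw [hR'] at hinf
    have h1 := hγ _ hinf
    refine h1 ((hfin β m).subset ?_)
    rw [hR' (F β) m]
    exact inter_subset_inter_right _ (Iio_subset_Iio (hβ _).le)
  refine not_countable_univ ((countable_iUnion fun m => (hfin' m).countable).mono ?_)
  intro ξ _
  obtain ⟨m, hm⟩ := hweb (F β) ξ
  exact mem_iUnion.2 ⟨m, hm⟩

/-- There is a (separated) `ω`-narrow uniform space `X` such that the neighbourhood filter of the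
identity of the free topological group over `X` is not Tukey below `ω^ω × 𝓤^ω`. -/
theorem result : ∃ (X : Type) (_ : UniformSpace X),
    (∀ x y : X, (∀ U ∈ 𝓤 X, (x, y) ∈ U) → x = y) ∧ OmegaNarrow X ∧ (∃ t, IsFreeTop X t) ∧
      ∀ t, IsFreeTop X t → ¬ TukeyLE (nhdsLE t) (prodLE X) :=
  ⟨X, inferInstance, separated, omegaNarrow, exists_isFreeTop X, fun _ ht => not_tukey ht⟩

end Pool.Agent.Results.MP_849c2a_gt.NotTukeyBelow
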